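import Pool.Agent.Y489.PH.Final

/-!
# Newman's theorem for small actions of profinite groups by pointwise Lipschitz maps
-/

set_option autoImplicit false

open MeasureTheory Set Metric Filter Topology
open scoped ENNReal NNReal

noncomputable section

namespace Pool.Agent.V11214.TB

open Pool.Agent.Y485.HS Pool.Agent.Y489.PH

/-- A pro-`p` subgroup which moves the points of a chart by little acts trivially. -/
theorem small_chart {n : ℕ} (hn : 1 ≤ n) {X : Type} [MetricSpace X]
    {H : Type} [Group H] [TopologicalSpace H] [IsTopologicalGroup H] [CompactSpace H] [T2Space H]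
    [TotallyDisconnectedSpace H] [MulAction H X] [ContinuousSMul H X]
    (hlip : ∀ h : H, PLip n (fun x : X => h • x)) {U : Set X} {ψ : X → E n} {L : ℝ}
    (hU : BiLip n U ψ L) (hball : closedBall 0 4 ⊆ ψ '' U)
    (hsmall : ∀ h : H, ∀ x ∈ U, ψ x ∈ closedBall 0 4 → h • x ∈ U ∧ dist (ψ (h • x)) (ψ x) ≤ 1 / 4)
    (p : ℕ) (hp : p.Prime) (P : Subgroup H) (hPc : IsClosed (P : Set H)) (hPp : ProP p P) :
    ∀ q ∈ P, ∀ x ∈ U, ψ x ∈ ball (0 : E n) 1 → q • x = x := by
  obtain ⟨T, hT, hTs, hTψ⟩ := Pool.Agent.Y726.PH.t_TRP n hn X H U ψ L hU hball hsmall hlip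
  have : CompactSpace P := isCompact_iff_compactSpace.1 hPc.isCompact
  let _ : MeasurableSpace P := borel P
  have _ : BorelSpace P := ⟨rfl⟩
  let μ : Measure P := Measure.haarMeasure ⊤
  have hμ1 : IsProbabilityMeasure μ := ⟨by
    have := Measure.haarMeasure_self (K₀ := (⊤ : TopologicalSpace.PositiveCompacts P))
    simpa using this⟩
  have hTP := hT.restrict P
  have hinv : ∀ a ∈ U, ∀ b ∈ U, dist a b ≤ L * dist (ψ a) (ψ b) := fun a ha b hb =>
    (hU.2.2 a ha b hb).2
  have hav := Pool.Agent.Y273.PH.t_AV n P μ (fun q : P => T (q : H)) hTP (fun q => hTs (q : H))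
    ∅ countable_empty ?_
  · intro q hq x hx hx1
    have hx4 : ψ x ∈ closedBall (0 : E n) 4 := ball_subset_closedBall (ball_subset_ball (by norm_num) hx1)
    have h1 := locp p hp n hn P μ (fun q : P => T (q : H)) hTP hPp hav ⟨q, hq⟩ (ψ x) hx1
    have h2 := hTψ q x hx hx4
    have h3 := (hsmall q x hx hx4).1
    refine hU.inj h3 hx ?_
    rw [← h2]
    exact h1
  · intro v hv _
    left
    obtain ⟨x, hx, rfl⟩ := hball (ball_subset_closedBall hv)
    have hxR : x ∈ Reg n X := ⟨U, ψ, L, hx, hU⟩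
    obtain ⟨K, hKo, hK⟩ := locTriv loc2 Pool.Agent.Y726.PH.t_TRP Pool.Agent.Y658.HS.start hn hlip hxR
    refine ⟨K.comap P.subtype, hKo.preimage continuous_subtype_val, ?_⟩
    obtain ⟨ε, hε, hKε⟩ := Metric.eventually_nhds_iff.1 hK
    have hL : 0 < |L| + 1 := by positivity
    have h1 : ∀ᶠ z in 𝓝 (ψ x), z ∈ ψ '' U ∧ z ∈ ball (0 : E n) 4 ∧ dist z (ψ x) < ε / (|L| + 1) := by
      filter_upwards [hU.2.1.mem_nhds ⟨x, hx, rfl⟩, isOpen_ball.mem_nhds hv,
        ball_mem_nhds (ψ x) (show 0 < ε / (|L| + 1) by positivity)] with z h1 h2 h3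
      exact ⟨h1, h2, h3⟩
    filter_upwards [h1] with z hz q hq
    obtain ⟨⟨y, hy, rfl⟩, hz4, hzd⟩ := hz
    have h5 : dist y x < ε := by
      have h6 := hinv y hy x hx
      have h7 : L * dist (ψ y) (ψ x) ≤ (|L| + 1) * dist (ψ y) (ψ x) := by
        apply mul_le_mul_of_nonneg_right _ dist_nonneg
        linarith [le_abs_self L]
      rw [lt_div_iff₀ hL] at hzd
      linarith
    have h8 := hTψ (q : H) y hy (ball_subset_closedBall hz4)
    show T (q : H) (ψ y) = ψ y
    rw [h8, hKε h5 (q : H) hq]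

/-- A profinite group which moves the points of one chart by little acts trivially. -/
theorem newman {n : ℕ} (hn : 1 ≤ n) {X : Type} [MetricSpace X]
    {H : Type} [Group H] [TopologicalSpace H] [IsTopologicalGroup H] [CompactSpace H] [T2Space H]
    [TotallyDisconnectedSpace H] [MulAction H X] [ContinuousSMul H X]
    (hdense : Dense (Reg n X)) (hconn : IsPreconnected (Reg n X))
    (hlip : ∀ h : H, PLip n (fun x : X => h • x)) {U : Set X} {ψ : X → E n} {L : ℝ}
    (hU : BiLip n U ψ L) (hball : closedBall 0 4 ⊆ ψ '' U)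
    (hsmall : ∀ h : H, ∀ x ∈ U, ψ x ∈ closedBall 0 4 → h • x ∈ U ∧ dist (ψ (h • x)) (ψ x) ≤ 1 / 4) :
    ∀ (k : H) (x : X), k • x = x := by
  let D : Subgroup H :=
    { carrier := {k | ∀ x : X, k • x = x}
      mul_mem' := by
        intro a b ha hb x
        rw [mul_smul, hb x, ha x]
      one_mem' := by
        intro x
        simp
      inv_mem' := by
        intro a ha x
        rw [inv_smul_eq_iff, ha x] }
  have hDc : IsClosed (D : Set H) := by
    have h1 : (D : Set H) = ⋂ x : X, {k : H | k • x = x} := by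
      ext k
      simp only [mem_iInter]
      rfl
    rw [h1]
    refine isClosed_iInter fun x => ?_
    have hc : Continuous (fun k : H => k • x) := by fun_prop
    exact isClosed_eq hc continuous_const
  have hD : D = ⊤ := by
    refine Pool.Agent.Y215.HS.syl H D hDc ?_
    intro p hp P hPc hPp k hk
    have : CompactSpace P := isCompact_iff_compactSpace.1 hPc.isCompact
    obtain ⟨x0, hx0U, hx0ψ⟩ := hball (mem_closedBall_self (by norm_num))
    have hx0 : x0 ∈ Reg n X := ⟨U, ψ, L, hx0U, hU⟩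
    let Z : Set X := {x | ∀ᶠ y in 𝓝 x, ∀ q : P, q • y = y}
    have hZo : IsOpen Z := by
      rw [isOpen_iff_mem_nhds]
      intro x hx
      exact eventually_eventually_nhds.2 hx
    have hψc : ContinuousAt ψ x0 := (hU.cont x0 hx0U).continuousAt (hU.1.mem_nhds hx0U)
    have hZx : x0 ∈ Z := by
      have h2 : ∀ᶠ x in 𝓝 x0, ψ x ∈ ball (0 : E n) 1 := by
        refine hψc.eventually_mem ?_
        rw [hx0ψ]
        exact ball_mem_nhds _ (by norm_num)
      filter_upwards [h2, hU.1.mem_nhds hx0U] with y hy hyU q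
      exact small_chart hn hlip hU hball hsmall p hp P hPc hPp (q : H) q.2 y hyU hy
    have hsub : Reg n X ⊆ Z := by
      refine hconn.subset_of_closure_inter_subset hZo ⟨x0, hx0, hZx⟩ ?_
      rintro x ⟨hxZ, hxR⟩
      obtain ⟨K', hK'o, hK't⟩ := locTriv loc2 Pool.Agent.Y726.PH.t_TRP
        Pool.Agent.Y658.HS.start hn hlip hxR
      refine newp n hn X p hp P hPp (fun h : P => hlip (h : H)) x hxR (K'.comap P.subtype)
        (hK'o.preimage continuous_subtype_val) ?_ ?_
      · filter_upwards [hK't] with y hy q hq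
        exact hy _ hq
      · intro V hV
        obtain ⟨a, haV, haZ⟩ := mem_closure_iff_nhds.1 hxZ V hV
        exact ⟨a, haV, haZ⟩
    intro x
    have hcl : IsClosed {x : X | k • x = x} :=
      isClosed_eq (continuous_const_smul k) continuous_id
    have h2 : Reg n X ⊆ {x : X | k • x = x} := by
      intro y hy
      exact (hsub hy).self_of_nhds ⟨k, hk⟩
    have h3 := hcl.closure_subset_iff.2 h2
    rw [hdense.closure_eq] at h3
    exact h3 (mem_univ x)
  intro k x
  have h1 : k ∈ D := by rw [hD]; exact Subgroup.mem_top _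
  exact h1 x

end Pool.Agent.V11214.TB
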