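import Pool.Agent.V11214.TB.Newman

/-!
# Actions on products which preserve the flag of projections
-/

set_option autoImplicit false

open MeasureTheory Set Metric Filter Topology
open scoped ENNReal NNReal

noncomputable section

namespace Pool.Agent.V11214.TB

open Pool.Agent.Y485.HS Pool.Agent.Y489.PH

/-- Newman property of a space `Y` for the class `P` of its self-maps. -/
def NewmanP (Y : Type) [TopologicalSpace Y] (P : (Y → Y) → Prop) : Prop :=
  ∃ (C : Set Y) (W : Set (Y × Y)), IsCompact C ∧ IsOpen W ∧ (∀ y ∈ C, (y, y) ∈ W) ∧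
    ∀ (K : Type) [Group K] [TopologicalSpace K] [IsTopologicalGroup K] [CompactSpace K] [T2Space K]
      [TotallyDisconnectedSpace K] [MulAction K Y] [ContinuousSMul K Y],
      (∀ k : K, P (fun y : Y => k • y)) → (∀ k : K, ∀ y ∈ C, (y, k • y) ∈ W) →
      ∀ (k : K) (y : Y), k • y = y

theorem newman_plip {n : ℕ} (hn : 1 ≤ n) {X : Type} [MetricSpace X] (hdense : Dense (Reg n X))
    (hconn : IsPreconnected (Reg n X)) : NewmanP X (PLip n) := by
  rcases isEmpty_or_nonempty X with hX | hX
  · refine ⟨∅, univ, isCompact_empty, isOpen_univ, fun _ _ => mem_univ _, ?_⟩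
    intro K _ _ _ _ _ _ _ _ _ _ k y
    exact (hX.false y).elim
  obtain ⟨x0, hx0⟩ := hdense.nonempty
  obtain ⟨U, ψ, L, hU, hx0U, hψ0, hball⟩ := Pool.Agent.Y658.HS.scaled_chart hx0
  have hψc : ∀ a ∈ U, ContinuousAt ψ a := fun a ha =>
    (hU.cont a ha).continuousAt (hU.1.mem_nhds ha)
  refine ⟨U ∩ ψ ⁻¹' closedBall 0 4, {q | q.1 ∈ U ∧ q.2 ∈ U ∧ dist (ψ q.2) (ψ q.1) < 1 / 4},
    ?_, ?_, ?_, ?_⟩
  · have hball' : ∀ z ∈ closedBall (0 : E n) 4, ∃ x, x ∈ U ∧ ψ x = z := fun z hz => hball hz
    choose! φ hφ using hball'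
    have h1 : U ∩ ψ ⁻¹' closedBall 0 4 = φ '' closedBall 0 4 := by
      ext x
      constructor
      · rintro ⟨hxU, hx4⟩
        refine ⟨ψ x, hx4, ?_⟩
        exact hU.inj (hφ _ hx4).1 hxU (hφ _ hx4).2
      · rintro ⟨z, hz, rfl⟩
        refine ⟨(hφ z hz).1, ?_⟩
        show ψ (φ z) ∈ closedBall 0 4
        rw [(hφ z hz).2]
        exact hz
    rw [h1]
    refine (isCompact_closedBall 0 4).image_of_continuousOn ?_
    refine (LipschitzOnWith.of_dist_le_mul (K := Real.toNNReal L) ?_).continuousOn
    intro a ha b hb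
    have h2 := (hU.2.2 _ (hφ a ha).1 _ (hφ b hb).1).2
    rw [(hφ a ha).2, (hφ b hb).2] at h2
    refine h2.trans ?_
    exact mul_le_mul_of_nonneg_right (Real.le_coe_toNNReal L) dist_nonneg
  · rw [isOpen_iff_mem_nhds]
    rintro ⟨a, b⟩ ⟨ha, hb, hab⟩
    have h1 : ContinuousAt (fun q : X × X => dist (ψ q.2) (ψ q.1)) (a, b) := by
      have h2 : ContinuousAt (fun q : X × X => ψ q.2) (a, b) :=
        ContinuousAt.comp (f := Prod.snd) (x := (a, b)) (hψc b hb) continuousAt_snd
      have h3 : ContinuousAt (fun q : X × X => ψ q.1) (a, b) :=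
        ContinuousAt.comp (f := Prod.fst) (x := (a, b)) (hψc a ha) continuousAt_fst
      exact h2.dist h3
    have h4 : ∀ᶠ q : X × X in 𝓝 (a, b), dist (ψ q.2) (ψ q.1) < 1 / 4 :=
      h1.eventually_lt_const hab
    have h5 : ∀ᶠ q : X × X in 𝓝 (a, b), q.1 ∈ U :=
      continuousAt_fst.eventually_mem (hU.1.mem_nhds ha)
    have h6 : ∀ᶠ q : X × X in 𝓝 (a, b), q.2 ∈ U :=
      continuousAt_snd.eventually_mem (hU.1.mem_nhds hb)
    filter_upwards [h4, h5, h6] with q h4 h5 h6
    exact ⟨h5, h6, h4⟩
  · rintro y ⟨hy, -⟩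
    refine ⟨hy, hy, ?_⟩
    simp
  · intro K _ _ _ _ _ _ _ _ hlip hsm k y
    refine newman hn hdense hconn hlip hU hball ?_ k y
    intro h x hx hx4
    obtain ⟨-, h2, h3⟩ := hsm h x ⟨hx, hx4⟩
    exact ⟨h2, h3.le⟩

theorem newman_line {Y : Type} [TopologicalSpace Y] (e : Y ≃ₜ ℝ) (P : (Y → Y) → Prop) :
    NewmanP Y P := by
  refine ⟨{e.symm 0, e.symm 1}, {q | |e q.1 - e q.2| < 1 / 2}, (Set.toFinite _).isCompact, ?_, ?_, ?_⟩
  · exact isOpen_lt (by fun_prop) continuous_const
  · intro y _
    show |e y - e y| < 1 / 2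
    simp
  · intro K _ _ _ _ _ _ _ _ _ hsm k y
    have hmono : ∀ k : K, StrictMono (fun t : ℝ => e (k • e.symm t)) := by
      intro k
      have hc : Continuous (fun t : ℝ => e (k • e.symm t)) :=
        e.continuous.comp ((continuous_const_smul k).comp e.symm.continuous)
      have hi : Function.Injective (fun t : ℝ => e (k • e.symm t)) := by
        intro a b hab
        exact e.symm.injective (MulAction.injective k (e.injective hab))
      rcases hc.strictMono_of_inj hi with h | h
      · exact h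
      · exfalso
        have h1 : e (k • e.symm 1) < e (k • e.symm 0) := h zero_lt_one
        have h2 : |e (e.symm 0) - e (k • e.symm 0)| < 1 / 2 := hsm k (e.symm 0) (by simp)
        have h3 : |e (e.symm 1) - e (k • e.symm 1)| < 1 / 2 := hsm k (e.symm 1) (by simp)
        rw [e.apply_symm_apply, abs_lt] at h2 h3
        linarith [h2.1, h2.2, h3.1, h3.2]
    have hcont : Continuous (fun k : K => e (k • y)) := by fun_prop
    obtain ⟨k1, -, hk1⟩ := isCompact_univ.exists_isMaxOn univ_nonempty hcont.continuousOn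
    have hmax : ∀ k : K, e (k • y) ≤ e (k1 • y) := fun k => hk1 (mem_univ k)
    have hfix : ∀ k : K, k • (k1 • y) = k1 • y := by
      intro k
      apply e.injective
      apply le_antisymm
      · rw [← mul_smul]
        exact hmax _
      · have h1 : e (k⁻¹ • (k1 • y)) ≤ e (k1 • y) := by
          rw [← mul_smul]
          exact hmax _
        have h2 : e (k • e.symm (e (k⁻¹ • (k1 • y)))) ≤ e (k • e.symm (e (k1 • y))) :=
          (hmono k).monotone h1
        simpa using h2
    have h1 := hfix k1⁻¹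
    rw [inv_smul_smul] at h1
    rw [h1]
    exact hfix k

theorem NewmanP.mono {Y : Type} [TopologicalSpace Y] {P Q : (Y → Y) → Prop} (h : NewmanP Y P)
    (hQ : ∀ f, Q f → P f) : NewmanP Y Q := by
  obtain ⟨C, W, hC, hW, hCW, hN⟩ := h
  refine ⟨C, W, hC, hW, hCW, ?_⟩
  intro K _ _ _ _ _ _ _ _ hk hs
  exact hN K (fun k => hQ _ (hk k)) hs

/-- open subgroups of profinite groups -/
theorem open_sub {S : Type} [Group S] [TopologicalSpace S] [IsTopologicalGroup S] [CompactSpace S]
    [T2Space S] [TotallyDisconnectedSpace S] {V : Set S} (hV : V ∈ 𝓝 (1 : S)) :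
    ∃ K : Subgroup S, IsOpen (K : Set S) ∧ (K : Set S) ⊆ V := by
  obtain ⟨O, hOV, hO, h1⟩ := mem_nhds_iff.1 hV
  obtain ⟨D, hD, h1D, hDO⟩ := compact_exists_isClopen_in_isOpen hO h1
  obtain ⟨K, hK⟩ := IsTopologicalGroup.exist_openSubgroup_sub_clopen_nhds_of_one hD h1D
  exact ⟨K, K.isOpen, fun x hx => hOV (hDO (hK hx))⟩

/-- the action on a fibre -/
@[reducible] def act {r : ℕ} {Y : Fin r → Type} {S : Type} [Group S] [MulAction S (∀ i, Y i)]
    (hflag : ∀ (s : S) (i : Fin r) (z z' : ∀ i, Y i), (∀ j ≤ i, z j = z' j) →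
      (s • z) i = (s • z') i) (i : Fin r) (K : Subgroup S)
    (hK : ∀ k ∈ K, ∀ (z : ∀ i, Y i) (j : Fin r), j < i → (k • z) j = z j) (z : ∀ i, Y i) :
    MulAction K (Y i) where
  smul k y := ((k : S) • Function.update z i y) i
  one_smul y := by
    show ((1 : S) • Function.update z i y) i = y
    simp
  mul_smul k l y := by
    show (((k : S) * (l : S)) • Function.update z i y) i =
      ((k : S) • Function.update z i (((l : S) • Function.update z i y) i)) i
    rw [mul_smul]
    apply hflag
    intro j hj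
    rcases hj.lt_or_eq with h | h
    · rw [hK l l.2 _ j h, Function.update_of_ne h.ne, Function.update_of_ne h.ne]
    · subst h
      simp

theorem tower {r : ℕ} {Y : Fin r → Type} [∀ i, TopologicalSpace (Y i)] [∀ i, T2Space (Y i)]
    [∀ i, PreconnectedSpace (Y i)] (Cls : ∀ i, (Y i → Y i) → Prop)
    (hN : ∀ i, NewmanP (Y i) (Cls i))
    {S : Type} [Group S] [TopologicalSpace S] [IsTopologicalGroup S] [CompactSpace S] [T2Space S]
    [TotallyDisconnectedSpace S] [MulAction S (∀ i, Y i)] [ContinuousSMul S (∀ i, Y i)]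
    (hflag : ∀ (s : S) (i : Fin r) (z z' : ∀ i, Y i), (∀ j ≤ i, z j = z' j) →
      (s • z) i = (s • z') i)
    (hcls : ∀ (s : S) (i : Fin r) (z : ∀ i, Y i),
      Cls i (fun y => (s • Function.update z i y) i)) :
    ∃ K : Subgroup S, IsOpen (K : Set S) ∧ ∀ k ∈ K, ∀ z : ∀ i, Y i, k • z = z := by
  rcases isEmpty_or_nonempty (∀ i, Y i) with hE | hE
  · exact ⟨⊤, isOpen_univ, fun k _ z => (hE.false z).elim⟩
  obtain ⟨z0⟩ := hE
  have key : ∀ m : ℕ, m ≤ r → ∃ K : Subgroup S, IsOpen (K : Set S) ∧
      ∀ k ∈ K, ∀ (z : ∀ i, Y i) (j : Fin r), (j : ℕ) < m → (k • z) j = z j := by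
    intro m
    induction m with
    | zero => exact fun _ => ⟨⊤, isOpen_univ, fun k _ z j hj => absurd hj (Nat.not_lt_zero _)⟩
    | succ m ih =>
      intro hm
      obtain ⟨K, hKo, hK⟩ := ih (Nat.le_of_succ_le hm)
      let i : Fin r := ⟨m, hm⟩
      have hK' : ∀ k ∈ K, ∀ (z : ∀ i, Y i) (j : Fin r), j < i → (k • z) j = z j :=
        fun k hk z j hj => hK k hk z j hj
      obtain ⟨C, W, hC, hW, hCW, hNew⟩ := hN i
      have hcts : Continuous (fun q : (∀ i, Y i) × (S × Y i) =>
          (q.2.2, (q.2.1 • Function.update q.1 i q.2.2) i)) := by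
        refine Continuous.prodMk (by fun_prop) ?_
        refine (continuous_apply i).comp ?_
        refine Continuous.smul (by fun_prop) ?_
        exact Continuous.update continuous_fst i (by fun_prop)
      have hfib : ∀ (K1 : Subgroup S), IsOpen (K1 : Set S) → K1 ≤ K → ∀ z : ∀ i, Y i,
          (∀ k ∈ K1, ∀ y ∈ C, (y, (k • Function.update z i y) i) ∈ W) →
          ∀ k ∈ K1, ∀ y : Y i, (k • Function.update z i y) i = y := by
        intro K1 hK1o hK1K z hz k hk y
        have hK1c : IsClosed (K1 : Set S) := Subgroup.isClosed_of_isOpen K1 hK1o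
        have : CompactSpace K1 := isCompact_iff_compactSpace.1 hK1c.isCompact
        let _ : MulAction K1 (Y i) := act hflag i K1 (fun k hk => hK' k (hK1K hk)) z
        have _ : ContinuousSMul K1 (Y i) := ⟨by
          have h1 : Continuous (fun q : K1 × Y i =>
              ((q.1 : S) • Function.update z i q.2) i) := by
            refine (continuous_apply i).comp ?_
            refine Continuous.smul (by fun_prop) ?_
            exact Continuous.update continuous_const i (by fun_prop)
          exact h1⟩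
        exact hNew K1 (fun k => hcls (k : S) i z) (fun k y hy => hz k k.2 y hy) ⟨k, hk⟩ y
      have hV : ∀ᶠ s in 𝓝 (1 : S), ∀ y ∈ C, (y, (s • Function.update z0 i y) i) ∈ W := by
        refine hC.eventually_forall_of_forall_eventually ?_
        intro y hy
        have h1 : Continuous (fun q : S × Y i => (q.2, (q.1 • Function.update z0 i q.2) i)) :=
          hcts.comp (Continuous.prodMk continuous_const continuous_id)
        refine h1.continuousAt.eventually_mem (hW.mem_nhds ?_)
        simpa using hCW y hy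
      obtain ⟨K0, hK0o, hK0⟩ := open_sub hV
      let K1 : Subgroup S := K ⊓ K0
      have hK1o : IsOpen (K1 : Set S) := hKo.inter hK0o
      have hK1c : IsCompact (K1 : Set S) := (Subgroup.isClosed_of_isOpen K1 hK1o).isCompact
      let A : Set (∀ i, Y i) := {z | ∀ k ∈ K1, ∀ y : Y i, (k • Function.update z i y) i = y}
      have hA0 : z0 ∈ A := hfib K1 hK1o inf_le_left z0 (fun k hk => hK0 hk.2)
      have hAc : IsClosed A := by
        have h1 : A = ⋂ k ∈ K1, ⋂ y : Y i, {z | (k • Function.update z i y) i = y} := by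
          ext z
          simp only [mem_iInter]
          rfl
        rw [h1]
        refine isClosed_biInter fun k _ => isClosed_iInter fun y => ?_
        refine isClosed_eq ?_ continuous_const
        refine (continuous_apply i).comp ?_
        refine (continuous_const_smul k).comp ?_
        exact Continuous.update continuous_id i continuous_const
      have hAo : IsOpen A := by
        rw [isOpen_iff_mem_nhds]
        intro z1 hz1
        have h1 : ∀ᶠ z in 𝓝 z1, ∀ q ∈ (K1 : Set S) ×ˢ C,
            (q.2, (q.1 • Function.update z i q.2) i) ∈ W := by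
          refine (hK1c.prod hC).eventually_forall_of_forall_eventually ?_
          rintro ⟨k, y⟩ ⟨hk, hy⟩
          refine hcts.continuousAt.eventually_mem (hW.mem_nhds ?_)
          have h2 : (k • Function.update z1 i y) i = y := hz1 k hk y
          show (y, (k • Function.update z1 i y) i) ∈ W
          rw [h2]
          exact hCW y hy
        filter_upwards [h1] with z hz
        exact hfib K1 hK1o inf_le_left z (fun k hk y hy => hz (k, y) ⟨hk, hy⟩)
      have hA : A = univ := IsClopen.eq_univ ⟨hAc, hAo⟩ ⟨z0, hA0⟩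
      refine ⟨K1, hK1o, ?_⟩
      intro k hk z j hj
      rcases Nat.lt_succ_iff_lt_or_eq.1 hj with h | h
      · exact hK k hk.1 z j h
      · have hji : j = i := Fin.ext h
        subst hji
        have hz : z ∈ A := by rw [hA]; exact mem_univ z
        have h3 := hz k hk (z i)
        rwa [Function.update_eq_self] at h3
  obtain ⟨K, hKo, hK⟩ := key r le_rfl
  exact ⟨K, hKo, fun k hk z => funext fun j => hK k hk z j j.2⟩

/-- Locally compact groups acting on products, preserving the flag of projections. -/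
theorem lie_tower {r : ℕ} {Y : Fin r → Type} [∀ i, MetricSpace (Y i)] {n : Fin r → ℕ}
    {G : Type} [Group G] [TopologicalSpace G] [IsTopologicalGroup G] [LocallyCompactSpace G]
    [MulAction G (∀ i, Y i)] [ContinuousSMul G (∀ i, Y i)] [FaithfulSMul G (∀ i, Y i)]
    (hflag : ∀ᶠ g in 𝓝 (1 : G), ∀ (i : Fin r) (z z' : ∀ i, Y i), (∀ j ≤ i, z j = z' j) →
      (g • z) i = (g • z') i)
    (hblock : ∀ i, Nonempty (Y i ≃ₜ ℝ) ∨ (1 ≤ n i ∧ Dense (Reg (n i) (Y i)) ∧
      IsPreconnected (Reg (n i) (Y i)) ∧ ∀ᶠ g in 𝓝 (1 : G), ∀ z : ∀ i, Y i,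
        PLip (n i) (fun y => (g • Function.update z i y) i))) : IsLie G := by
  classical
  have hT : T2Space G := by
    refine ⟨fun g h hgh => ?_⟩
    obtain ⟨x, hx⟩ : ∃ x : (∀ i, Y i), g • x ≠ h • x := by
      by_contra hall
      push Not at hall
      exact hgh (eq_of_smul_eq_smul hall)
    obtain ⟨u, v, hu, hv, hgu, hhv, huv⟩ := t2_separation hx
    have hc : Continuous (fun g : G => g • x) := by fun_prop
    exact ⟨_, _, hu.preimage hc, hv.preimage hc, hgu, hhv, huv.preimage _⟩
  let Cls : ∀ i, (Y i → Y i) → Prop := fun i f => ¬ Nonempty (Y i ≃ₜ ℝ) → PLip (n i) f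
  have hpre : ∀ i, PreconnectedSpace (Y i) := by
    intro i
    rcases hblock i with ⟨⟨e⟩⟩ | ⟨-, hd, hc, -⟩
    · refine ⟨?_⟩
      rw [← e.symm.surjective.range_eq]
      exact isPreconnected_range e.symm.continuous
    · refine ⟨?_⟩
      rw [← hd.closure_eq]
      exact hc.closure
  have hN : ∀ i, NewmanP (Y i) (Cls i) := by
    intro i
    by_cases hi : Nonempty (Y i ≃ₜ ℝ)
    · obtain ⟨e⟩ := hi
      exact newman_line e _
    · rcases hblock i with h | ⟨h1, hd, hc, -⟩
      · exact absurd h hi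
      · exact (newman_plip h1 hd hc).mono (fun f hf => hf hi)
  have hblock' : ∀ᶠ g in 𝓝 (1 : G), ∀ i, ∀ z : ∀ i, Y i,
      Cls i (fun y => (g • Function.update z i y) i) := by
    rw [eventually_all]
    intro i
    rcases hblock i with h | ⟨-, -, -, h⟩
    · exact Eventually.of_forall fun g z hn => absurd h hn
    · filter_upwards [h] with g hg z _
      exact hg z
  have hNSS : Pool.Agent.W660.GY.NSS G := by
    refine nss_of_Z _ (hflag.and hblock') ?_
    intro S _ _ _ _ _ _ i hi hinj hiV
    let _ : MulAction S (∀ i, Y i) := MulAction.compHom (∀ i, Y i) i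
    have _ : ContinuousSMul S (∀ i, Y i) := ⟨by
      have h : Continuous (fun q : S × (∀ i, Y i) => i q.1 • q.2) := by fun_prop
      exact h⟩
    obtain ⟨K, hKo, hKt⟩ := tower (S := S) Cls hN (fun s => (hiV s).1) (fun s => (hiV s).2)
    have hbot : K = ⊥ := by
      rw [eq_bot_iff]
      intro k hk
      rw [Subgroup.mem_bot]
      apply hinj
      refine eq_of_smul_eq_smul (α := ∀ i, Y i) fun x => ?_
      rw [map_one, one_smul]
      exact hKt k hk x
    rw [hbot] at hKo
    refine discreteTopology_of_isOpen_singleton_one ?_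
    convert hKo using 1
    ext x
    simp
  obtain ⟨E, i1, i2, i3, ⟨C⟩⟩ := Pool.Agent.Y328.HS.lga G hNSS
  let _ := i1
  let _ := i2
  have _ := i3
  exact Pool.Agent.Y286.HS.lgb G E C

end Pool.Agent.V11214.TB
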